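import Pool.Agent.W945.Lc.Stm

/-!
Project LC (helper945), part BIAS: the small-bias generator.
-/

set_option autoImplicit false

namespace Pool.Agent.W748.Lc.BIAS

open Finset Pool.Agent.W945.Pw Pool.Agent.W945.Lc

/-- the sign character of `ZMod 2` -/
noncomputable def psi (v : ZMod 2) : ℝ := if v = 1 then -1 else 1

lemma psi_zero : psi 0 = 1 := by
  unfold psi
  rw [if_neg (by decide)]

lemma psi_one : psi 1 = -1 := by
  unfold psi
  rw [if_pos rfl]

lemma psi_add (a b : ZMod 2) : psi (a + b) = psi a * psi b := by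
  have h : ∀ c : ZMod 2, c = 0 ∨ c = 1 := by decide
  rcases h a with rfl | rfl <;> rcases h b with rfl | rfl
  · rw [add_zero, psi_zero, one_mul]
  · rw [zero_add, psi_zero, one_mul]
  · rw [add_zero, psi_zero, mul_one]
  · have h2 : (1 : ZMod 2) + 1 = 0 := by decide
    rw [h2, psi_zero, psi_one]
    norm_num

lemma psi_sum {ι : Type} (S : Finset ι) (f : ι → ZMod 2) : psi (∑ i ∈ S, f i) = ∏ i ∈ S, psi (f i) := by
  classical
  induction S using Finset.induction_on with
  | empty => rw [Finset.sum_empty, Finset.prod_empty, psi_zero]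
  | insert a s ha ih => rw [Finset.sum_insert ha, Finset.prod_insert ha, psi_add, ih]

lemma abs_psi (v : ZMod 2) : |psi v| = 1 := by
  unfold psi
  split_ifs
  · norm_num
  · norm_num

lemma sg_psi (v : ZMod 2) : sg (decide (v = 1)) = psi v := by
  unfold sg psi
  by_cases h : v = 1
  · simp [h]
  · simp [h]

theorem main : BIAS.Stm := by
  classical
  intro F _ _ n lam hlam S hS
  have hF : 0 < (Fintype.card F : ℝ) := by
    exact_mod_cast Fintype.card_pos
  -- the polynomial
  set P : Polynomial F := ∑ i ∈ S, Polynomial.X ^ (i : ℕ) with hP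
  have hev : ∀ w : F, P.eval w = ∑ i ∈ S, w ^ (i : ℕ) := by
    intro w
    rw [hP, Polynomial.eval_finset_sum]
    simp
  have hP0 : P ≠ 0 := by
    obtain ⟨i₀, hi₀⟩ := hS
    intro h0
    have h1 : P.coeff (i₀ : ℕ) = 0 := by rw [h0]; simp
    rw [hP, Polynomial.finset_sum_coeff] at h1
    have h2 : ∑ i ∈ S, (Polynomial.X ^ (i : ℕ) : Polynomial F).coeff (i₀ : ℕ) = 1 := by
      rw [Finset.sum_eq_single i₀]
      · simp
      · intro b _ hb
        rw [Polynomial.coeff_X_pow, if_neg]
        intro h
        exact hb (Fin.ext h.symm)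
      · intro h
        exact absurd hi₀ h
    rw [h2] at h1
    exact one_ne_zero h1
  have hdeg : P.natDegree ≤ n := by
    apply Polynomial.natDegree_sum_le_of_forall_le
    intro i _
    exact (Polynomial.natDegree_X_pow_le (i : ℕ)).trans i.2.le
  have hroots : (Finset.univ.filter (fun w : F => P.eval w = 0)).card ≤ n := by
    have h1 : Finset.univ.filter (fun w : F => P.eval w = 0) ⊆ P.roots.toFinset := by
      intro w hw
      rw [Finset.mem_filter] at hw
      rw [Multiset.mem_toFinset, Polynomial.mem_roots hP0]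
      exact hw.2
    exact ((Finset.card_le_card h1).trans (Multiset.toFinset_card_le _)).trans
      ((Polynomial.card_roots' P).trans hdeg)
  -- the character
  have hchi : ∀ a w : F, chi S (gen lam (a, w)) = psi (lam (a * P.eval w)) := by
    intro a w
    unfold chi gen
    rw [hev, Finset.mul_sum, map_sum, psi_sum]
    refine Finset.prod_congr rfl fun i _ => ?_
    exact sg_psi _
  -- the inner sum
  obtain ⟨v, hv⟩ : ∃ v, lam v = 1 := by
    by_contra hno
    push Not at hno
    apply hlam
    ext x
    have h : ∀ c : ZMod 2, c ≠ 1 → c = 0 := by decide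
    exact h _ (hno x)
  have hin : ∀ w : F, P.eval w ≠ 0 → ∑ a : F, psi (lam (a * P.eval w)) = 0 := by
    intro w hw
    have h1 : ∑ a : F, psi (lam (a * P.eval w)) =
        ∑ a : F, psi (lam ((a + v / P.eval w) * P.eval w)) :=
      (Fintype.sum_equiv (Equiv.addRight (v / P.eval w)) _ _ fun a => rfl).symm
    have h2 : ∀ a : F, psi (lam ((a + v / P.eval w) * P.eval w)) =
        -psi (lam (a * P.eval w)) := by
      intro a
      rw [add_mul, div_mul_cancel₀ _ hw, map_add, hv, psi_add, psi_one]
      ring
    have h3 : ∑ a : F, psi (lam ((a + v / P.eval w) * P.eval w)) =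
        -∑ a : F, psi (lam (a * P.eval w)) := by
      rw [← Finset.sum_neg_distrib]
      exact Finset.sum_congr rfl fun a _ => h2 a
    linarith
  have hbd : ∀ w : F, |∑ a : F, psi (lam (a * P.eval w))| ≤
      if P.eval w = 0 then (Fintype.card F : ℝ) else 0 := by
    intro w
    by_cases hw : P.eval w = 0
    · rw [if_pos hw]
      calc |∑ a : F, psi (lam (a * P.eval w))| ≤ ∑ a : F, |psi (lam (a * P.eval w))| :=
            Finset.abs_sum_le_sum_abs _ _
        _ = ∑ _a : F, (1 : ℝ) := Finset.sum_congr rfl fun a _ => abs_psi _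
        _ = (Fintype.card F : ℝ) := by simp
    · rw [if_neg hw, hin w hw, abs_zero]
  have htot : |∑ p : F × F, chi S (gen lam p)| ≤ n * (Fintype.card F : ℝ) := by
    rw [Fintype.sum_prod_type_right]
    calc |∑ w : F, ∑ a : F, chi S (gen lam (a, w))|
        ≤ ∑ w : F, |∑ a : F, chi S (gen lam (a, w))| := Finset.abs_sum_le_sum_abs _ _
      _ ≤ ∑ w : F, if P.eval w = 0 then (Fintype.card F : ℝ) else 0 := by
          refine Finset.sum_le_sum fun w _ => ?_
          have : ∑ a : F, chi S (gen lam (a, w)) = ∑ a : F, psi (lam (a * P.eval w)) :=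
            Finset.sum_congr rfl fun a _ => hchi a w
          rw [this]
          exact hbd w
      _ = ((Finset.univ.filter (fun w : F => P.eval w = 0)).card : ℝ) * Fintype.card F := by
          rw [← Finset.sum_filter, Finset.sum_const, nsmul_eq_mul]
      _ ≤ n * (Fintype.card F : ℝ) :=
          mul_le_mul_of_nonneg_right (by exact_mod_cast hroots) hF.le
  unfold avg
  rw [abs_div, Fintype.card_prod, Nat.cast_mul, abs_of_pos (mul_pos hF hF), div_le_div_iff₀ (mul_pos hF hF) hF]
  nlinarith

end Pool.Agent.W748.Lc.BIAS
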